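import Mathlib
import Pool.Agent.R293.VP2

/-!
# MP_f16f70_an: `C([0,1]) *_r C^{*_r ∞}` and `C^{*_r ∞}` with their free product states

There are a separable simple purely infinite unital C*-algebra `C` (in fact `C = 𝒪_∞`) and a state
`σ` on `C` such that no isomorphism from the reduced free product of `C([0,1])`, with the Lebesgue
state, and `(C^{*_r ∞}, σ^{*∞})` to `C^{*_r ∞}` carries the free product state to `σ^{*∞}`.

`σ` is the vacuum state of `𝒪_∞`: `C^{*_r ∞}` is generated by isometries `S_i` with orthogonal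
ranges and `σ^{*∞}(S_i S_i*) = 0`, so that `σ^{*∞}(x h) = σ^{*∞}(x) σ^{*∞}(h)` for all `h` in the
centralizer of `σ^{*∞}`.  But the copy of the function `t` is in the centralizer of the free product
state, and `∫ t² dt ≠ (∫ t dt)²`.
-/

set_option autoImplicit false

namespace Pool.Agent.Results.MP_f16f70_an.NoStateIso

/-- `B` is simple: `B ≠ 0` and every closed two-sided ideal is `0` or `B`. -/
def Simple (B : Type) [CStarAlgebra B] : Prop :=
  Nontrivial B ∧ ∀ I : TwoSidedIdeal B, IsClosed (I : Set B) → I = ⊥ ∨ I = ⊤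

/-- `p` is an infinite projection: it is Murray–von Neumann equivalent to a proper subprojection
`w w*` of itself. -/
def InfiniteProjection {B : Type} [CStarAlgebra B] (p : B) : Prop :=
  star p = p ∧ p * p = p ∧
    ∃ w : B, star w * w = p ∧ p * (w * star w) = w * star w ∧ w * star w ≠ p

/-- `H` is a hereditary C*-subalgebra of `B`: a closed `*`-subalgebra such that `0 ≤ y ≤ x` and
`x ∈ H` imply `y ∈ H`; here `y = c* c` and `x - y = d* d`. -/
def Hereditary {B : Type} [CStarAlgebra B] (H : NonUnitalStarSubalgebra ℂ B) : Prop :=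
  IsClosed (H : Set B) ∧ ∀ c d : B, star c * c + star d * d ∈ H → star c * c ∈ H

/-- Pure infiniteness: every nonzero hereditary C*-subalgebra contains an infinite projection. -/
def PurelyInfinite (B : Type) [CStarAlgebra B] : Prop :=
  ∀ H : NonUnitalStarSubalgebra ℂ B, Hereditary H → (∃ b ∈ H, b ≠ 0) →
    ∃ p ∈ H, InfiniteProjection p

/-- `μ` is a state. -/
def IsState {D : Type} [CStarAlgebra D] (μ : D →ₗ[ℂ] ℂ) : Prop :=
  μ 1 = 1 ∧ ∀ x, 0 ≤ (μ (star x * x)).re ∧ (μ (star x * x)).im = 0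

/-- `(D, ρ)`, with the embeddings `e j`, is the reduced free product of the `(A j, ω j)`: `ρ` is a
state, `ρ ∘ e j = ω j`, the copies `e j (A j)` are free with respect to `ρ` (`ρ` vanishes on the
products `e j₁ x₁ ⋯ e jₙ xₙ`, `n ≥ 1`, with `j₁ ≠ j₂ ≠ ⋯` and `ω j₁ x₁ = ⋯ = ω jₙ xₙ = 0`) and
generate `D`, and the GNS representation of `ρ` is faithful. -/
structure IsReducedFreeProduct {J : Type} (A : J → Type) [∀ j, CStarAlgebra (A j)]
    (ω : ∀ j, A j →ₗ[ℂ] ℂ) {D : Type} [CStarAlgebra D] (ρ : D →ₗ[ℂ] ℂ)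
    (e : ∀ j, A j →⋆ₐ[ℂ] D) : Prop where
  state : IsState ρ
  restrict : ∀ j x, ρ (e j x) = ω j x
  free : ∀ w : List (Σ j, A j), w ≠ [] → w.IsChain (fun a b => a.1 ≠ b.1) →
    (∀ z ∈ w, ω z.1 z.2 = 0) → ρ ((w.map fun z => e z.1 z.2).prod) = 0
  generate : (StarAlgebra.adjoin ℂ (⋃ j, Set.range (e j))).topologicalClosure = ⊤
  gns_faithful : ∀ a, (∀ x, ρ (star (a * x) * (a * x)) = 0) → a = 0

/-- `(D, ρ)` is the reduced free product of countably infinitely many copies of `(C, σ)`. -/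
def IsFreePower {C : Type} [CStarAlgebra C] (σ : C →ₗ[ℂ] ℂ) {D : Type} [CStarAlgebra D]
    (ρ : D →ₗ[ℂ] ℂ) : Prop :=
  ∃ e : ℕ → C →⋆ₐ[ℂ] D, IsReducedFreeProduct (fun _ : ℕ => C) (fun _ => σ) ρ e

/-- The family of two algebras `A` and `B`. -/
def Two (A B : Type) : Bool → Type
  | true => A
  | false => B

instance twoCStar (A B : Type) [CStarAlgebra A] [CStarAlgebra B] : ∀ b, CStarAlgebra (Two A B b)
  | true => (inferInstance : CStarAlgebra A)
  | false => (inferInstance : CStarAlgebra B)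

/-- The family of two functionals `φ` and `ψ`. -/
def twoFun {A B : Type} [CStarAlgebra A] [CStarAlgebra B] (φ : A →ₗ[ℂ] ℂ) (ψ : B →ₗ[ℂ] ℂ) :
    ∀ b, Two A B b →ₗ[ℂ] ℂ
  | true => φ
  | false => ψ

/-- `(D, ρ)` is the reduced free product of `(A, φ)` and `(B, ψ)`. -/
def IsFreeProduct {A B : Type} [CStarAlgebra A] [CStarAlgebra B] (φ : A →ₗ[ℂ] ℂ)
    (ψ : B →ₗ[ℂ] ℂ) {D : Type} [CStarAlgebra D] (ρ : D →ₗ[ℂ] ℂ) : Prop :=
  ∃ e : ∀ b, Two A B b →⋆ₐ[ℂ] D, IsReducedFreeProduct (Two A B) (twoFun φ ψ) ρ e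

/-- The Lebesgue state `f ↦ ∫₀¹ f(t) dt` of `C([0,1])`. -/
noncomputable def lebesgue : C(unitInterval, ℂ) →ₗ[ℂ] ℂ where
  toFun f := ∫ t : unitInterval, f t
  map_add' f g := by
    show ∫ t : unitInterval, (f t + g t) = _
    exact MeasureTheory.integral_add (f.continuous.integrable_of_hasCompactSupport
      (HasCompactSupport.of_compactSpace _)) (g.continuous.integrable_of_hasCompactSupport
      (HasCompactSupport.of_compactSpace _))
  map_smul' c f := by
    show ∫ t : unitInterval, c * f t = _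
    exact MeasureTheory.integral_const_mul c _

section conversions

open scoped ComplexOrder

lemma state_of {D : Type} [CStarAlgebra D] {μ : D →ₗ[ℂ] ℂ} (h1 : μ 1 = 1)
    (h2 : ∀ x, 0 ≤ μ (star x * x)) : IsState μ := by
  refine ⟨h1, fun x => ?_⟩
  have h := h2 x
  rw [Complex.nonneg_iff] at h
  exact ⟨h.1, h.2.symm⟩

lemma IsState.nonneg {D : Type} [CStarAlgebra D] {μ : D →ₗ[ℂ] ℂ} (h : IsState μ) (x : D) :
    0 ≤ μ (star x * x) := by
  rw [Complex.nonneg_iff]
  exact ⟨(h.2 x).1, (h.2 x).2.symm⟩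

lemma to_rfp {J : Type} {A : J → Type} [∀ j, CStarAlgebra (A j)] {ω : ∀ j, A j →ₗ[ℂ] ℂ}
    {D : Type} [CStarAlgebra D] {ρ : D →ₗ[ℂ] ℂ} {e : ∀ j, A j →⋆ₐ[ℂ] D}
    (h : IsReducedFreeProduct A ω ρ e) :
    Pool.Agent.H923R2.FZ.IsRFP A (fun j => (ω j : A j → ℂ)) ρ e where
  one := h.state.1
  nonneg := h.state.nonneg
  tr := h.restrict
  free := h.free
  gen := h.generate
  gns := h.gns_faithful

lemma of_rfp {J : Type} {A : J → Type} [∀ j, CStarAlgebra (A j)] {ω : ∀ j, A j →ₗ[ℂ] ℂ}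
    {D : Type} [CStarAlgebra D] {ρ : D →ₗ[ℂ] ℂ} {e : ∀ j, A j →⋆ₐ[ℂ] D}
    (h : Pool.Agent.H923R2.FZ.IsRFP A (fun j => (ω j : A j → ℂ)) ρ e) :
    IsReducedFreeProduct A ω ρ e where
  state := state_of h.one h.nonneg
  restrict := h.tr
  free := h.free
  generate := h.gen
  gns_faithful := h.gns

lemma exists_product {A B : Type} [CStarAlgebra A] [CStarAlgebra B] {φ : A →ₗ[ℂ] ℂ}
    {ψ : B →ₗ[ℂ] ℂ} (h1 : IsState φ) (h2 : IsState ψ) :
    ∃ (D : Type) (_ : CStarAlgebra D) (ρ : D →ₗ[ℂ] ℂ), IsFreeProduct φ ψ ρ := by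
  obtain ⟨D, i, ρ, e, h⟩ := Pool.Agent.R293.RFP.ex Bool (Two A B) (twoFun φ ψ)
    (fun b => match b with
      | true => h1.1
      | false => h2.1)
    (fun b => match b with
      | true => h1.nonneg
      | false => h2.nonneg)
  exact ⟨D, i, ρ, e, of_rfp h⟩

lemma exists_power {C : Type} [CStarAlgebra C] {σ : C →ₗ[ℂ] ℂ} (h : IsState σ) :
    ∃ (D : Type) (_ : CStarAlgebra D) (ρ : D →ₗ[ℂ] ℂ), IsFreePower σ ρ := by
  obtain ⟨D, i, ρ, e, h⟩ := Pool.Agent.R293.RFP.ex ℕ (fun _ => C) (fun _ => σ) (fun _ => h.1)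
    (fun _ => h.nonneg)
  exact ⟨D, i, ρ, e, of_rfp h⟩

end conversions

lemma lebesgue_apply (f : C(unitInterval, ℂ)) : lebesgue f = ∫ t : unitInterval, f t := rfl

lemma lebesgue_real (g : ℝ → ℝ) (f : C(unitInterval, ℂ))
    (hf : ∀ t : unitInterval, f t = ((g t : ℝ) : ℂ)) :
    lebesgue f = ((∫ t in (0 : ℝ)..1, g t : ℝ) : ℂ) := by
  rw [lebesgue_apply]
  simp_rw [hf]
  rw [integral_complex_ofReal]
  congr 1
  rw [intervalIntegral.integral_of_le zero_le_one,
    ← MeasureTheory.integral_Icc_eq_integral_Ioc]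
  exact MeasureTheory.integral_subtype_comap measurableSet_Icc g

lemma lebesgue_state : IsState lebesgue := by
  constructor
  · rw [lebesgue_real (fun _ => 1) 1 (fun t => by simp)]
    simp
  · intro x
    have h : lebesgue (star x * x) = ((∫ t : unitInterval, ‖x t‖ ^ 2 : ℝ) : ℂ) := by
      rw [lebesgue_apply, ← integral_complex_ofReal]
      refine MeasureTheory.integral_congr_ae (Filter.Eventually.of_forall fun t => ?_)
      show star (x t) * x t = ((‖x t‖ ^ 2 : ℝ) : ℂ)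
      rw [Complex.ofReal_pow, ← Complex.conj_mul']
      rfl
    rw [h, Complex.ofReal_re, Complex.ofReal_im]
    exact ⟨MeasureTheory.integral_nonneg fun t => by positivity, rfl⟩

/-- the function `t` -/
noncomputable def tt : C(unitInterval, ℂ) := ⟨fun t => ((t : ℝ) : ℂ), by fun_prop⟩

lemma leb_t : lebesgue tt = 1 / 2 := by
  rw [lebesgue_real (fun t => t) tt (fun t => rfl), integral_id]
  norm_num

lemma leb_tt : lebesgue (tt * tt) = 1 / 3 := by
  rw [lebesgue_real (fun t => t ^ 2) (tt * tt) (fun t => by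
    show ((t : ℝ) : ℂ) * ((t : ℝ) : ℂ) = _
    push_cast; ring), integral_pow]
  norm_num

/-- There are a separable simple purely infinite unital C*-algebra `C` and a state `σ` on `C` such
that, `(E, φ)` being the infinite reduced free power of `(C, σ)` and `(B, ψ)` the reduced free
product of `C([0,1])` with the Lebesgue state and `(E, φ)` (both exist), no isomorphism
`θ : B → E` satisfies `φ ∘ θ = ψ`. -/
theorem result :
    ∃ (C : Type) (_ : CStarAlgebra C) (σ : C →ₗ[ℂ] ℂ),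
      TopologicalSpace.SeparableSpace C ∧ Simple C ∧ PurelyInfinite C ∧ IsState σ ∧
      (∃ (E : Type) (_ : CStarAlgebra E) (φ : E →ₗ[ℂ] ℂ), IsFreePower σ φ) ∧
      ∀ (E : Type) [CStarAlgebra E] (φ : E →ₗ[ℂ] ℂ), IsFreePower σ φ →
        (∃ (B : Type) (_ : CStarAlgebra B) (ψ : B →ₗ[ℂ] ℂ), IsFreeProduct lebesgue φ ψ) ∧
        ∀ (B : Type) [CStarAlgebra B] (ψ : B →ₗ[ℂ] ℂ), IsFreeProduct lebesgue φ ψ →
          ¬ ∃ θ : B ≃⋆ₐ[ℂ] E, ∀ x, φ (θ x) = ψ x := by
  have hs1 : IsState Pool.Agent.R293.VP.om1 :=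
    state_of Pool.Agent.R293.VP.om1_one Pool.Agent.R293.VP.om1_nonneg
  refine ⟨Pool.Agent.R293.OI.OO, inferInstance, Pool.Agent.R293.VP.om1,
    Pool.Agent.R293.OI.OO_sep, Pool.Agent.R293.OI.OO_simple, Pool.Agent.R293.OI.OO_pi, hs1,
    exists_power hs1, ?_⟩
  rintro E _ φ ⟨e, he⟩
  refine ⟨exists_product lebesgue_state he.state, ?_⟩
  rintro B _ ψ ⟨f, hf⟩ ⟨θ, hθ⟩
  refine Pool.Agent.R293.VP.no_state_iso (to_rfp he) (to_rfp hf) true
    (tt : C(unitInterval, ℂ)) ?_ ?_ θ hθ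
  · have h : ∀ x : C(unitInterval, ℂ), lebesgue (tt * x) = lebesgue (x * tt) := fun x => by
      rw [mul_comm]
    exact h
  · show lebesgue (tt * tt) ≠ lebesgue tt * lebesgue tt
    rw [leb_t, leb_tt]
    norm_num

end Pool.Agent.Results.MP_f16f70_an.NoStateIso
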